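import Pool.Agent.Helper80.Green.Official

/-!
Problem MP_bd685a_al. Every species of the modular representation ring, dimension bounded or
not, takes on an algebraic module `X` a value which is a sum of at most `dim X` roots of unity,
and on the dual module the complex conjugate value.
-/

universe u v

namespace Pool.Agent.Results.MP_bd685a_al.AlgebraicCyclotomic

open Pool.Agent.H80Green

theorem result {k : Type u} [Field k] {G : Type v} [Group G] (p : ℕ) (hp : 0 < p)
    (hk : ∀ n : ℕ, n.Coprime p → 0 < n → ∃ ζ : k, IsPrimitiveRoot ζ n)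
    (s : Spc k G) (X : Md k G) (r : ℕ) (Y : Fin r → Md k G)
    (hX : ∀ m : ℕ, ∃ (l : List (Fin r)) (B : Md k G),
      Md.Isom (X.tpow m) ((Md.sum (l.map Y)).prod B) ∧ s.Negligible B) :
    ∃ (N : ℕ) (ω : Fin N → ℂ), N ≤ X.dim ∧ (∀ i, ∃ m : ℕ, 0 < m ∧ ω i ^ m = 1) ∧
      s.val X = ∑ i, ω i ∧ s.val X.dual = (starRingEnd ℂ) (s.val X) :=
  s.cyclotomic hp hk X r Y hX

end Pool.Agent.Results.MP_bd685a_al.AlgebraicCyclotomic
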