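import Pool.Agent.Helper80.Green.Official

/-!
Problem MP_bd685a_al. A dimension bounded species of the modular representation ring is
self-conjugate on all modules of growth bound one; in particular on all modules whose tensor
powers have, modulo negligible modules, only summands of subexponential dimension, and on all
modules of a class in which some tensor power of each module has summands saving a fixed power of
the dimension.
-/

universe u v

namespace Pool.Agent.Results.MP_bd685a_al.GrowthBoundSelfConjugate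

open Pool.Agent.H80Green

theorem result {k : Type u} [Field k] {G : Type v} [Group G] (p : ℕ) (hp : 0 < p)
    (hk : ∀ n : ℕ, n.Coprime p → 0 < n → ∃ ζ : k, IsPrimitiveRoot ζ n)
    (s : Spc k G) (hs : s.DimBounded) :
    (∀ X : Md k G, s.GrowthBound X 1 → s.val X.dual = (starRingEnd ℂ) (s.val X)) ∧
    (∀ X : Md k G,
      (∀ ε : ℝ, 0 < ε → ∃ m : ℕ, 0 < m ∧ ∃ (l : List (Md k G)) (B : Md k G),
        Md.Isom (X.tpow m) ((Md.sum l).prod B) ∧ s.Negligible B ∧
          ∀ W ∈ l, (W.dim : ℝ) ≤ Real.exp (ε * m)) →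
      s.GrowthBound X 1) ∧
    (∀ (𝒞 : Set (Md k G)) (θ : ℝ), 0 ≤ θ → θ < 1 →
      (∀ X ∈ 𝒞, ∃ m : ℕ, 0 < m ∧ ∃ (l : List (Md k G)) (B : Md k G),
        Md.Isom (X.tpow m) ((Md.sum l).prod B) ∧ s.Negligible B ∧
          ∀ W ∈ l, W ∈ 𝒞 ∧ (W.dim : ℝ) ≤ (X.dim : ℝ) ^ (θ * m)) →
      ∀ X ∈ 𝒞, s.GrowthBound X 1) :=
  ⟨fun X hX => s.selfConj hp hk hs X hX,
    fun _ hX => Spc.GrowthBound.of_subexp hX,
    fun 𝒞 θ h0 h1 h => Spc.GrowthBound.of_saving 𝒞 θ h0 h1 h⟩

end Pool.Agent.Results.MP_bd685a_al.GrowthBoundSelfConjugate
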