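import Pool.Agent.Helper96.BD.DivP

/-!
Problem MP_bd685a_al. A dimension bounded species of the modular representation ring in
characteristic `p` is nearly self-conjugate on the modules of dimension less than `p`: the
eigenvalues of the species on such a module lie near the unit circle, uniformly in the field, the
group, the species and the module, in every linear range of dimensions. It is exactly
self-conjugate if the values lie in a discrete ring, or if an element of order `p` acts with a
single Jordan block and the species vanishes on the modules projective for this element, for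
example if it vanishes on all indecomposable modules of dimension divisible by `p`.
-/

universe u v

namespace Pool.Agent.Results.MP_bd685a_al.NearlySelfConjugate

open Pool.Agent.H80Green Pool.Agent.H96BD

theorem result :
    -- (a) the roots
    (∀ (p : ℕ) (k : Type u) [Field k] [CharP k p] (G : Type v) [Group G], p.Prime →
      ∀ s : Spc k G, s.DimBounded → ∀ X : Md k G, X.dim < p →
        ∃ x : Fin X.dim → ℂ, (∀ a, x a ≠ 0) ∧
          s.val X = ∑ a, x a ∧ s.val X.dual = ∑ a, (x a)⁻¹ ∧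
          ∀ R : ℝ, 1 ≤ R →
            (2 : ℝ) ^ (X.dim - 1) * ((p + X.dim - 2).choose (X.dim - 1) : ℝ) ≤
              R ^ (p - X.dim) →
            (∀ a, R⁻¹ ≤ ‖x a‖ ∧ ‖x a‖ ≤ R) ∧
            ‖s.val X.dual - (starRingEnd ℂ) (s.val X)‖ ≤ X.dim * (R - R⁻¹)) ∧
    -- (b) an explicit bound
    (∀ (p : ℕ) (k : Type u) [Field k] [CharP k p] (G : Type v) [Group G], p.Prime →
      ∀ s : Spc k G, s.DimBounded → ∀ X : Md k G, X.dim < p →
        ‖s.val X.dual - (starRingEnd ℂ) (s.val X)‖ ≤
          2 * X.dim * Real.sinh (X.dim * Real.log (4 * p) / (p - X.dim))) ∧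
    -- (c) the uniform bound in a linear range of dimensions
    (∀ ε : ℝ, 0 < ε → ∃ δ : ℝ, 0 < δ ∧
      ∀ (p : ℕ) (k : Type u) [Field k] [CharP k p] (G : Type v) [Group G], p.Prime →
        ∀ s : Spc k G, s.DimBounded → ∀ X : Md k G, (X.dim : ℝ) ≤ δ * p →
          ‖s.val X.dual - (starRingEnd ℂ) (s.val X)‖ ≤ ε * X.dim) ∧
    -- (d) exact self-conjugacy for values in a discrete ring
    (∀ (p : ℕ) (k : Type u) [Field k] [CharP k p] (G : Type v) [Group G], p.Prime →
      ∀ s : Spc k G, s.DimBounded → ∀ D : Subring ℂ, (∀ d ∈ D, d ≠ 0 → 1 ≤ ‖d‖) →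
        (∀ d ∈ D, (starRingEnd ℂ) d ∈ D) →
        ∀ X : Md k G, (X.dim : ℝ) + 4 * (X.dim : ℝ) ^ 2 * Real.log (4 * p) ≤ p →
          s.val X ∈ D → s.val X.dual ∈ D →
          s.val X.dual = (starRingEnd ℂ) (s.val X)) ∧
    -- (e) exact self-conjugacy at a single Jordan block
    (∀ (p : ℕ) (k : Type u) [Field k] [CharP k p] (G : Type v) [Group G], p.Prime →
      ∀ s : Spc k G, s.DimBounded → ∀ X : Md k G, X.dim < p →
        ∀ g : G, g ^ p = 1 → CyclicAt X g → (∀ B : Md k G, ProjAt p B g → s.val B = 0) →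
        ∃ x : Fin X.dim → ℂ, Function.Injective x ∧ s.val X = ∑ a, x a ∧ (∀ a, ‖x a‖ = 1) ∧
          (∀ a b, x a ^ p = x b ^ p) ∧ (Finite G → ∃ m : ℕ, 0 < m ∧ ∀ a, x a ^ m = 1) ∧
          s.val X.dual = (starRingEnd ℂ) (s.val X)) ∧
    -- (f) the same for species killing the indecomposable modules of dimension divisible by `p`
    (∀ (p : ℕ) (k : Type u) [Field k] [CharP k p] (G : Type v) [Group G], p.Prime →
      ∀ s : Spc k G, s.DimBounded →
        (∀ B : Md k G, B.Indecomposable → p ∣ B.dim → s.val B = 0) →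
        ∀ X : Md k G, X.dim < p → ∀ g : G, X.rep (g ^ p) = 1 → CyclicAt X g →
        ∃ x : Fin X.dim → ℂ, Function.Injective x ∧ s.val X = ∑ a, x a ∧ (∀ a, ‖x a‖ = 1) ∧
          (∀ a b, x a ^ p = x b ^ p) ∧ (Finite G → ∃ m : ℕ, 0 < m ∧ ∀ a, x a ^ m = 1) ∧
          s.val X.dual = (starRingEnd ℂ) (s.val X)) := by
  refine ⟨?_, ?_, ?_, ?_, ?_, ?_⟩
  · intro p k _ _ G _ _ s hs X hX
    obtain ⟨x, h1, -, h2⟩ := spc_roots s hs X hX
    exact ⟨x, h1, h2⟩
  · intro p k _ _ G _ _ s hs X hX
    exact spc_explicit s hs X hX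
  · intro ε hε
    obtain ⟨δ, hδ, h⟩ := spc_uniform.{u, v} ε hε
    exact ⟨δ, hδ, fun p k _ _ G _ hp s hs X hX => h p k G hp.pos s hs X hX⟩
  · intro p k _ _ G _ _ s hs D hD hDc X hX h1 h2
    exact spc_discrete s hs D hD hDc X hX h1 h2
  · intro p k _ _ G _ hp s hs X hX g hg hc hv
    exact spc_exact hp s hs X hX g (by rw [hg, map_one]) hc hv
  · intro p k _ _ G _ hp s hs hv X hX g hg hc
    exact spc_exact hp s hs X hX g hg hc (val_eq_zero_of_projAt s g hv)

end Pool.Agent.Results.MP_bd685a_al.NearlySelfConjugate
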