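import Pool.Agent.Helper84.BD.Fin

/-!
Problem MP_bd685a_al. Let `N` be a subgroup of `G` of finite index prime to the characteristic `p`
of `k`, for example a Sylow `p`-subgroup of a finite group. Subexponential decomposition of the
tensor powers passes from the restriction of a module to `N` to the module, it holds on the class
of modules generated by the modules of dimension at most two, and it implies that all dimension
bounded species are self-conjugate on the module.
-/

universe u v

namespace Pool.Agent.Results.MP_bd685a_al.SylowSubexp

open Pool.Agent.H80Green Pool.Agent.H84BD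

theorem result {k : Type u} [Field k] (p : ℕ) [Fact p.Prime] [CharP k p] {G : Type v} [Group G]
    (N : Subgroup G) [N.FiniteIndex] (hN : (N.index : k) ≠ 0) :
    (∀ X : Md k G, Subexp (res N.subtype X) → Subexp X) ∧
    (∀ Y : Md k N, Gen Y → Subexp Y) ∧
    ((∀ n : ℕ, n.Coprime p → 0 < n → ∃ ζ : k, IsPrimitiveRoot ζ n) →
      ∀ X : Md k G, Subexp (res N.subtype X) ∨ Gen (res N.subtype X) →
      ∀ s : Spc k G, s.DimBounded → s.val X.dual = (starRingEnd ℂ) (s.val X)) := by
  refine ⟨fun X hX => subexp_of_res N hN X hX, fun Y hY => subexp_of_gen p Y hY,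
    fun hk X hX s hs => ?_⟩
  have h1 : Subexp (res N.subtype X) := hX.elim id fun h => subexp_of_gen p _ h
  exact s.selfConj (Fact.out (p := p.Prime)).pos hk hs X ((subexp_of_res N hN X h1).growth s)

end Pool.Agent.Results.MP_bd685a_al.SylowSubexp
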